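import Mathlib

set_option autoImplicit false

/-!
# MP_87bea5_an: no Legendre multiplier sequence has odd polynomial degree

Test polynomials `((1+x)/2)^n`, whose Legendre coefficients are proportional to
`(2k+1) binom(2n+1, n-k)`. After the substitution `x = 1 - 2z/n` and multiplication by
`(1+z/n)^n` the images converge coefficientwise to a multiple of the confluent hypergeometric
series `1F1(-e-1/2; 1; z)` (`d = 2e+1`), which violates Newton's (Laguerre's) inequality.
-/

open Polynomial Finset Filter Topology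

namespace Pool.Agent.Results.MP_87bea5_an.OddDegree

/-- The Legendre polynomial `P_n`, by the Rodrigues formula of the problem. -/
noncomputable def leg (n : ℕ) : ℝ[X] :=
  C (1 / (2 ^ n * (n.factorial : ℝ))) * derivative^[n] ((X ^ 2 - 1) ^ n)

lemma iterate_derivative_comp_aff (p : ℝ[X]) (n : ℕ) :
    derivative^[n] (p.comp (1 - C 2 * X)) = C ((-2) ^ n) * (derivative^[n] p).comp (1 - C 2 * X) := by
  induction n generalizing p with
  | zero => simp
  | succ n ih =>
    rw [Function.iterate_succ_apply, derivative_comp]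
    have h1 : derivative (1 - C 2 * X : ℝ[X]) = C (-2) := by
      simp
    rw [h1, iterate_derivative_C_mul, ih, Function.iterate_succ_apply]
    rw [← mul_assoc, ← C_mul]
    congr 2
    ring

lemma leg_comp (n : ℕ) :
    (leg n).comp (1 - C 2 * X) = (shiftedLegendre n).map (Int.castRingHom ℝ) := by
  have h1 := iterate_derivative_comp_aff ((X ^ 2 - 1) ^ n) n
  have h2 : ((X ^ 2 - 1) ^ n : ℝ[X]).comp (1 - C 2 * X) = C ((-4) ^ n) * (X ^ n * (1 - X) ^ n) := by
    simp only [pow_comp, sub_comp, X_comp, one_comp]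
    rw [← mul_pow, C_pow, ← mul_pow]
    congr 1
    have h4 : (C 4 : ℝ[X]) = 4 := map_ofNat C 4
    have : (C (-4) : ℝ[X]) = -4 := by rw [C_neg, h4]
    have h2 : (C 2 : ℝ[X]) = 2 := map_ofNat C 2
    rw [this, h2]
    ring
  have h3 := congrArg (Polynomial.map (Int.castRingHom ℝ)) (factorial_mul_shiftedLegendre_eq n)
  rw [Polynomial.map_mul, ← Polynomial.iterate_derivative_map] at h3
  simp only [Polynomial.map_natCast, Polynomial.map_mul, Polynomial.map_pow, map_X,
    Polynomial.map_sub, Polynomial.map_one] at h3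
  rw [h2, iterate_derivative_C_mul, ← h3] at h1
  have hf : (n.factorial : ℝ) ≠ 0 := by positivity
  unfold leg
  rw [mul_comp, C_comp]
  have h4 : (C ((-2) ^ n) : ℝ[X]) * ((derivative^[n] ((X ^ 2 - 1) ^ n)).comp (1 - C 2 * X)) =
      C ((-4) ^ n) * (C (n.factorial : ℝ) * (shiftedLegendre n).map (Int.castRingHom ℝ)) := by
    rw [← h1]; simp
  have h5 : (C (1 / (2 ^ n * (n.factorial : ℝ))) : ℝ[X]) =
      C (1 / (2 ^ n * (n.factorial : ℝ)) * (1 / (-2) ^ n)) * C ((-2) ^ n) := by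
    rw [← C_mul]
    congr 1
    have : ((-2 : ℝ)) ^ n ≠ 0 := by positivity
    field_simp
  rw [h5, mul_assoc, h4, ← mul_assoc, ← mul_assoc, ← C_mul, ← C_mul]
  have h6 : (1 / (2 ^ n * (n.factorial : ℝ)) * (1 / (-2) ^ n) * (-4) ^ n * (n.factorial : ℝ)) = 1 := by
    have h7 : ((-4 : ℝ)) ^ n = 2 ^ n * (-2) ^ n := by rw [← mul_pow]; norm_num
    have h8 : ((-2 : ℝ)) ^ n ≠ 0 := by positivity
    rw [h7]
    field_simp
  rw [h6]
  simp

/-- `binom(k,j) binom(k+j,k)` -/
def B (k j : ℕ) : ℕ := k.choose j * (k + j).choose k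

lemma coeff_leg_comp (k j : ℕ) : ((leg k).comp (1 - C 2 * X)).coeff j = (-1) ^ j * (B k j : ℝ) := by
  rw [leg_comp, coeff_map, coeff_shiftedLegendre]
  simp [B]
  ring


lemma B_zero {k j : ℕ} (h : k < j) : B k j = 0 := by
  simp [B, Nat.choose_eq_zero_of_lt h]

lemma B_rec (k j : ℕ) : ((k : ℝ) * (k + 1)) * B k j =
    ((j : ℝ) + 1) ^ 2 * B k (j + 1) + (j : ℝ) * (j + 1) * B k j := by
  rcases lt_or_ge k j with h | h
  · rw [B_zero h, B_zero (by omega : k < j + 1)]; simp
  · obtain ⟨m, rfl⟩ := Nat.exists_eq_add_of_le h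
    have h1 : ((j + m).choose (j + 1) : ℝ) * (j + 1) = (j + m).choose j * m := by
      have := Nat.choose_succ_right_eq (j + m) j
      rw [Nat.add_sub_cancel_left] at this
      exact_mod_cast this
    have h2 : ((j + m + j).choose (j + m) : ℝ) * ((j : ℝ) + m + j + 1) =
        (j + m + (j + 1)).choose (j + m) * (j + 1) := by
      have := Nat.choose_mul_succ_eq (j + m + j) (j + m)
      rw [show j + m + j + 1 - (j + m) = j + 1 by omega] at this
      exact_mod_cast this
    unfold B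
    push_cast
    have h3 : ((j : ℝ) + 1) ^ 2 * (((j + m).choose (j + 1) : ℝ) * ((j + m + (j + 1)).choose (j + m) : ℝ))
        = (((j + m).choose (j + 1) : ℝ) * (j + 1)) * (((j + m + (j + 1)).choose (j + m) : ℝ) * (j + 1)) := by
      ring
    rw [h3, h1, ← h2]
    ring

/-- weights -/
def w (n k : ℕ) : ℕ := (2 * n + 1).choose (n - k)

lemma w_rec {n k : ℕ} (h : k ≤ n) :
    (((n : ℝ) + 1) * (n + 2) - k * (k + 1)) * w (n + 1) k = (2 * (n : ℝ) + 3) * (2 * n + 2) * w n k := by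
  obtain ⟨m, rfl⟩ := Nat.exists_eq_add_of_le h
  unfold w
  rw [show k + m + 1 - k = m + 1 by omega, show k + m - k = m by omega]
  have h1 := Nat.add_one_mul_choose_eq (2 * (k + m) + 2) m
  have h2 := Nat.choose_mul_succ_eq (2 * (k + m) + 1) m
  rw [show 2 * (k + m) + 1 + 1 - m = 2 * k + m + 2 by omega] at h2
  have h1' : ((2 * ((k : ℝ) + m) + 3)) * ((2 * (k + m) + 2).choose m : ℝ) =
      ((2 * (k + m + 1) + 1).choose (m + 1) : ℝ) * (m + 1) := by
    rw [show 2 * (k + m + 1) + 1 = 2 * (k + m) + 2 + 1 by ring]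
    have : ((2 * (k + m) + 3 : ℕ) : ℝ) = 2 * ((k : ℝ) + m) + 3 := by push_cast; ring
    rw [← this]
    exact_mod_cast h1
  have h2' : ((2 * (k + m) + 1).choose m : ℝ) * (2 * ((k : ℝ) + m) + 2) =
      ((2 * (k + m) + 2).choose m : ℝ) * (2 * k + m + 2) := by
    have : ((2 * (k + m) + 2 : ℕ) : ℝ) = 2 * ((k : ℝ) + m) + 2 := by push_cast; ring
    rw [← this]
    exact_mod_cast h2
  push_cast
  have h3 : (2 * ((k : ℝ) + m) + 3) * (2 * ((k : ℝ) + m) + 2) * ((2 * (k + m) + 1).choose m : ℝ)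
     = (2 * ((k : ℝ) + m) + 3) * (((2 * (k + m) + 1).choose m : ℝ) * (2 * ((k : ℝ) + m) + 2)) := by ring
  rw [h3, h2', ← mul_assoc, h1']
  ring

/-- weighted sums -/
noncomputable def W (f : ℕ → ℝ) (n j : ℕ) : ℝ := ∑ k ∈ range (n + 1), f k * w n k * B k j

lemma W_lam (f : ℕ → ℝ) (n j : ℕ) : W (fun k => f k * ((k : ℝ) * (k + 1))) n j =
    ((j : ℝ) + 1) ^ 2 * W f n (j + 1) + (j : ℝ) * (j + 1) * W f n j := by
  unfold W
  rw [mul_sum, mul_sum, ← sum_add_distrib]
  apply sum_congr rfl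
  intro k _
  have := B_rec k j
  calc f k * ((k : ℝ) * (k + 1)) * w n k * B k j = f k * w n k * (((k : ℝ) * (k + 1)) * B k j) := by ring
    _ = _ := by rw [this]; ring

lemma W_rec (f : ℕ → ℝ) (n j : ℕ) :
    (((n : ℝ) + 1) * (n + 2) - j * (j + 1)) * W f (n + 1) j =
      (2 * (n : ℝ) + 3) * (2 * n + 2) * W f n j + ((j : ℝ) + 1) ^ 2 * W f (n + 1) (j + 1) := by
  have h1 := W_lam f (n + 1) j
  have h2 : (((n : ℝ) + 1) * (n + 2)) * W f (n + 1) j - W (fun k => f k * ((k : ℝ) * (k + 1))) (n + 1) j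
      = (2 * (n : ℝ) + 3) * (2 * n + 2) * W f n j := by
    unfold W
    rw [mul_sum, mul_sum, ← sum_sub_distrib, sum_range_succ]
    have h3 : ((n : ℝ) + 1) * (n + 2) * (f (n + 1) * (w (n + 1) (n + 1) : ℝ) * (B (n + 1) j : ℝ)) -
        f (n + 1) * (((n + 1 : ℕ) : ℝ) * (((n + 1 : ℕ) : ℝ) + 1)) * (w (n + 1) (n + 1) : ℝ) * (B (n + 1) j : ℝ) = 0 := by
      push_cast; ring
    rw [h3, add_zero]
    apply sum_congr rfl
    intro k hk
    have hk' : k ≤ n := by simpa [Nat.lt_succ_iff] using hk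
    have := w_rec hk'
    calc ((n : ℝ) + 1) * (n + 2) * (f k * (w (n + 1) k : ℝ) * (B k j : ℝ)) -
          f k * ((k : ℝ) * (k + 1)) * (w (n + 1) k : ℝ) * (B k j : ℝ)
        = f k * B k j * ((((n : ℝ) + 1) * (n + 2) - k * (k + 1)) * w (n + 1) k) := by ring
      _ = _ := by rw [this]; ring
  linarith

lemma W_gt (f : ℕ → ℝ) {n j : ℕ} (h : n < j) : W f n j = 0 := by
  unfold W
  apply sum_eq_zero
  intro k hk
  have hk' : k ≤ n := by simpa [Nat.lt_succ_iff] using hk
  rw [B_zero (by omega)]; simp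

lemma W_diag (f : ℕ → ℝ) (n : ℕ) : W f n n = f n * n.centralBinom := by
  unfold W
  rw [sum_range_succ, sum_eq_zero, zero_add]
  · simp [w, B, Nat.centralBinom, two_mul]
  · intro k hk
    rw [B_zero (by simpa using hk)]; simp

lemma W_unique (f : ℕ → ℝ) (T : ℕ → ℕ → ℝ)
    (hgt : ∀ n j, n < j → T n j = 0) (hd : ∀ n, T n n = f n * n.centralBinom)
    (hrec : ∀ n j : ℕ, j ≤ n → (((n : ℝ) + 1) * (n + 2) - j * (j + 1)) * T (n + 1) j =
      (2 * (n : ℝ) + 3) * (2 * n + 2) * T n j + ((j : ℝ) + 1) ^ 2 * T (n + 1) (j + 1)) :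
    ∀ n j, W f n j = T n j := by
  intro n
  induction n with
  | zero =>
    intro j
    rcases Nat.eq_zero_or_pos j with rfl | hj
    · rw [W_diag, hd]
    · rw [W_gt f hj, hgt 0 j hj]
  | succ n ih =>
    have key : ∀ m j, j + m = n + 1 → W f (n + 1) j = T (n + 1) j := by
      intro m
      induction m with
      | zero =>
        intro j hj
        have : j = n + 1 := by omega
        subst this
        rw [W_diag, hd]
      | succ m ihm =>
        intro j hj
        have h1 := W_rec f n j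
        have h2 := hrec n j (by omega)
        rw [ih j, ihm (j + 1) (by omega), ← h2] at h1
        have hjn : (j : ℝ) ≤ n := by exact_mod_cast (by omega : j ≤ n)
        have hj0 : (0 : ℝ) ≤ j := by positivity
        have hpos : (0 : ℝ) < ((n : ℝ) + 1) * (n + 2) - j * (j + 1) := by nlinarith
        exact mul_left_cancel₀ hpos.ne' h1
    intro j
    rcases le_or_gt j (n + 1) with hj | hj
    · exact key (n + 1 - j) j (by omega)
    · rw [W_gt f hj, hgt _ j hj]

lemma cb_rec (n : ℕ) : ((n : ℝ) + 1) * (n + 1).centralBinom = 2 * (2 * n + 1) * n.centralBinom := by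
  exact_mod_cast Nat.succ_mul_centralBinom_succ n

lemma choose_rec1 {n j : ℕ} (h : j ≤ n) :
    ((j : ℝ) + 1) * (n + 1).choose (j + 1) = ((n : ℝ) + 1 - j) * (n + 1).choose j := by
  have := Nat.choose_succ_right_eq (n + 1) j
  have h2 : (((n + 1 - j : ℕ)) : ℝ) = (n : ℝ) + 1 - j := by
    rw [Nat.cast_sub (by omega)]; push_cast; ring
  rw [← h2]
  have h3 : (((n + 1).choose (j + 1) * (j + 1) : ℕ) : ℝ) = (((n + 1).choose j * (n + 1 - j) : ℕ) : ℝ) := by
    rw [this]
  push_cast at h3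
  linarith

lemma choose_rec2 {n j : ℕ} (h : j ≤ n) :
    ((n : ℝ) + 1) * n.choose j = ((n : ℝ) + 1 - j) * (n + 1).choose j := by
  have := Nat.choose_mul_succ_eq n j
  have h2 : (((n + 1 - j : ℕ)) : ℝ) = (n : ℝ) + 1 - j := by
    rw [Nat.cast_sub (by omega)]; push_cast; ring
  rw [← h2]
  have h3 : ((n.choose j * (n + 1) : ℕ) : ℝ) = (((n + 1).choose j * (n + 1 - j) : ℕ) : ℝ) := by
    rw [this]
  push_cast at h3
  linarith

lemma W_U (n j : ℕ) : W (fun k => 2 * (k : ℝ) + 1) n j =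
    (2 * (n : ℝ) + 1) * n.centralBinom * n.choose j := by
  refine W_unique _ (fun n j => (2 * (n : ℝ) + 1) * n.centralBinom * n.choose j) ?_ ?_ ?_ n j
  · intro n j h
    simp [Nat.choose_eq_zero_of_lt h]
  · intro n; simp
  · intro n j h
    have h1 := cb_rec n
    have h2 := choose_rec1 h
    have h3 := choose_rec2 h
    push_cast
    have e1 : (2 * (n : ℝ) + 3) * (2 * n + 2) * ((2 * (n : ℝ) + 1) * n.centralBinom * n.choose j) =
        (2 * (n : ℝ) + 3) * (2 * (2 * n + 1) * n.centralBinom) * (((n : ℝ) + 1) * n.choose j) := by ring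
    have e2 : ((j : ℝ) + 1) ^ 2 * ((2 * ((n : ℝ) + 1) + 1) * (n + 1).centralBinom * (n + 1).choose (j + 1)) =
        ((j : ℝ) + 1) * ((2 * ((n : ℝ) + 1) + 1) * (n + 1).centralBinom) * (((j : ℝ) + 1) * (n + 1).choose (j + 1)) := by ring
    rw [e1, e2, h2, h3, ← h1]
    ring

lemma W_V (n j : ℕ) : W (fun _ => 1) n j =
    4 ^ n / 4 ^ j * j.centralBinom * n.choose j := by
  refine W_unique _ (fun n j => 4 ^ n / 4 ^ j * j.centralBinom * n.choose j) ?_ ?_ ?_ n j
  · intro n j h
    simp [Nat.choose_eq_zero_of_lt h]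
  · intro n; simp
  · intro n j h
    have h1 := cb_rec j
    have h2 := choose_rec1 h
    have h3 := choose_rec2 h
    have e1 : (2 * (n : ℝ) + 3) * (2 * n + 2) * (4 ^ n / 4 ^ j * j.centralBinom * n.choose j) =
        (2 * (n : ℝ) + 3) * 2 * (4 ^ n / 4 ^ j * j.centralBinom) * (((n : ℝ) + 1) * n.choose j) := by ring
    have e2 : ((j : ℝ) + 1) ^ 2 * (4 ^ (n + 1) / 4 ^ (j + 1) * (j + 1).centralBinom * (n + 1).choose (j + 1)) =
        (4 ^ (n + 1) / 4 ^ (j + 1) * (((j : ℝ) + 1) * (j + 1).centralBinom)) * (((j : ℝ) + 1) * (n + 1).choose (j + 1)) := by ring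
    rw [e1, e2, h2, h3, h1]
    field_simp
    ring


lemma inv_lim : Tendsto (fun n : ℕ => (1 : ℝ) / n) atTop (𝓝 0) :=
  tendsto_one_div_atTop_nhds_zero_nat

lemma choose_lim (j : ℕ) :
    Tendsto (fun n : ℕ => (n.choose j : ℝ) / (n : ℝ) ^ j) atTop (𝓝 (1 / (j.factorial : ℝ))) := by
  induction j with
  | zero => simp
  | succ j ih =>
    have h1 : Tendsto (fun n : ℕ => ((n.choose j : ℝ) / (n : ℝ) ^ j) * (1 - (j : ℝ) * (1 / (n : ℝ))) / ((j : ℝ) + 1))
        atTop (𝓝 ((1 / (j.factorial : ℝ)) * (1 - (j : ℝ) * 0) / ((j : ℝ) + 1))) :=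
      (ih.mul (tendsto_const_nhds.sub (tendsto_const_nhds.mul inv_lim))).div_const _
    have h2 : (1 / (j.factorial : ℝ)) * (1 - (j : ℝ) * 0) / ((j : ℝ) + 1) = 1 / ((j + 1).factorial : ℝ) := by
      rw [Nat.factorial_succ]; push_cast
      field_simp; simp
    rw [h2] at h1
    refine h1.congr' ?_
    filter_upwards [eventually_ge_atTop (j + 1)] with n hn
    have hn0 : (n : ℝ) ≠ 0 := by
      have : 0 < n := by omega
      positivity
    have h3 : (n.choose (j + 1) : ℝ) * (j + 1) = n.choose j * ((n : ℝ) - j) := by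
      have := Nat.choose_succ_right_eq n j
      rw [← Nat.cast_sub (by omega)]
      exact_mod_cast this
    have hj : (j : ℝ) + 1 ≠ 0 := by positivity
    have h4 : (n.choose (j + 1) : ℝ) = n.choose j * ((n : ℝ) - j) / (j + 1) := by
      field_simp; linarith
    rw [h4]
    field_simp
    ring

/-- `μ_m = ∏_{l<m} (l + 1/2)` -/
noncomputable def mu (m : ℕ) : ℝ := ∏ l ∈ range m, ((l : ℝ) + 1 / 2)

lemma cb_mu (j : ℕ) : (j.centralBinom : ℝ) / 4 ^ j = mu j / j.factorial := by
  induction j with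
  | zero => simp [mu]
  | succ j ih =>
    have h1 := cb_rec j
    have h2 : mu (j + 1) = mu j * ((j : ℝ) + 1 / 2) := by simp [mu, prod_range_succ]
    have hj : (j : ℝ) + 1 ≠ 0 := by positivity
    have h3 : ((j + 1).centralBinom : ℝ) = 2 * (2 * j + 1) * j.centralBinom / (j + 1) := by
      field_simp; linarith
    have hf : (j.factorial : ℝ) ≠ 0 := by positivity
    rw [h2, h3, Nat.factorial_succ]
    rw [div_eq_div_iff (by positivity) hf] at ih
    push_cast
    rw [pow_succ, div_div, div_eq_div_iff (by positivity) (by positivity)]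
    linear_combination (4 * (j + 1 / 2) * (j + 1) : ℝ) * ih

lemma cb_bound (n : ℕ) : ((n.centralBinom : ℝ) / 4 ^ n) ^ 2 ≤ 1 / (2 * (n : ℝ) + 1) := by
  induction n with
  | zero => simp
  | succ n ih =>
    have h1 := cb_rec n
    have hj : (n : ℝ) + 1 ≠ 0 := by positivity
    have h3 : ((n + 1).centralBinom : ℝ) / 4 ^ (n + 1) = (2 * n + 1) / (2 * (n + 1)) * (n.centralBinom / 4 ^ n) := by
      have : ((n + 1).centralBinom : ℝ) = 2 * (2 * n + 1) * n.centralBinom / (n + 1) := by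
        field_simp; linarith
      rw [this, pow_succ]
      field_simp
      ring
    rw [h3, mul_pow]
    have h4 : ((2 * (n : ℝ) + 1) / (2 * (n + 1))) ^ 2 * ((n.centralBinom : ℝ) / 4 ^ n) ^ 2 ≤
        ((2 * (n : ℝ) + 1) / (2 * (n + 1))) ^ 2 * (1 / (2 * (n : ℝ) + 1)) :=
      mul_le_mul_of_nonneg_left ih (by positivity)
    refine h4.trans ?_
    have hn : (0 : ℝ) ≤ n := by positivity
    rw [div_pow, div_mul_div_comm, div_le_div_iff₀ (by positivity) (by push_cast; positivity)]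
    push_cast
    nlinarith [mul_nonneg hn hn, mul_nonneg (mul_nonneg hn hn) hn]

lemma cb_lim : Tendsto (fun n : ℕ => (n.centralBinom : ℝ) / 4 ^ n) atTop (𝓝 0) := by
  have h1 : Tendsto (fun n : ℕ => Real.sqrt (1 / (n : ℝ))) atTop (𝓝 0) := by
    have := (Real.continuous_sqrt.tendsto 0).comp inv_lim
    rw [Real.sqrt_zero] at this
    exact this
  refine squeeze_zero' (Eventually.of_forall fun n => by positivity) ?_ h1
  filter_upwards [eventually_ge_atTop 1] with n hn
  apply Real.le_sqrt_of_sq_le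
  refine (cb_bound n).trans ?_
  have : (1 : ℝ) ≤ n := by exact_mod_cast hn
  apply one_div_le_one_div_of_le (by linarith) (by linarith)

/-- weighted sums attached to `Q` -/
noncomputable def S (Q : ℝ[X]) (n j : ℕ) : ℝ := W (fun k => (2 * (k : ℝ) + 1) * Q.eval (k : ℝ)) n j

lemma W_add (f g : ℕ → ℝ) (n j : ℕ) : W (fun k => f k + g k) n j = W f n j + W g n j := by
  unfold W; rw [← sum_add_distrib]; apply sum_congr rfl; intros; ring

lemma W_smul (c : ℝ) (f : ℕ → ℝ) (n j : ℕ) : W (fun k => c * f k) n j = c * W f n j := by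
  unfold W; rw [mul_sum]; apply sum_congr rfl; intros; ring

lemma S_add (Q R : ℝ[X]) (n j : ℕ) : S (Q + R) n j = S Q n j + S R n j := by
  unfold S
  rw [← W_add]
  congr 1
  funext k
  simp only [eval_add]; ring

lemma S_lam (Q : ℝ[X]) (n j : ℕ) : S ((X ^ 2 + X) * Q) n j =
    ((j : ℝ) + 1) ^ 2 * S Q n (j + 1) + (j : ℝ) * (j + 1) * S Q n j := by
  unfold S
  rw [← W_lam]
  congr 1
  funext k
  simp only [eval_mul, eval_add, eval_pow, eval_X]; ring

/-- growth statement -/
def Good (e : ℕ) (Q : ℝ[X]) (c : ℝ) : Prop :=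
  ∀ j : ℕ, Tendsto (fun n : ℕ => S Q n j / (4 ^ n * (n : ℝ) ^ (e + 1 + j))) atTop
    (𝓝 (c * mu (e + 1 + j) / (j.factorial : ℝ) ^ 2))

lemma Good.add {e : ℕ} {Q R : ℝ[X]} {c d : ℝ} (h1 : Good e Q c) (h2 : Good e R d) :
    Good e (Q + R) (c + d) := by
  intro j
  have := (h1 j).add (h2 j)
  rw [show c * mu (e + 1 + j) / (j.factorial : ℝ) ^ 2 + d * mu (e + 1 + j) / (j.factorial : ℝ) ^ 2 =
    (c + d) * mu (e + 1 + j) / (j.factorial : ℝ) ^ 2 by ring] at this
  refine this.congr fun n => ?_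
  rw [S_add]; ring

lemma Good.up {e : ℕ} {Q : ℝ[X]} {c : ℝ} (h1 : Good e Q c) : Good (e + 1) Q 0 := by
  intro j
  have := (h1 j).mul inv_lim
  rw [show c * mu (e + 1 + j) / (j.factorial : ℝ) ^ 2 * 0 =
    0 * mu (e + 1 + 1 + j) / (j.factorial : ℝ) ^ 2 by ring] at this
  refine this.congr fun n => ?_
  rw [show e + 1 + 1 + j = e + 1 + j + 1 by ring, pow_succ, div_mul_div_comm, mul_one, mul_assoc]

lemma Good.lam {e : ℕ} {Q : ℝ[X]} {c : ℝ} (h1 : Good e Q c) : Good (e + 1) ((X ^ 2 + X) * Q) c := by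
  intro j
  have h2 := ((h1 (j + 1)).const_mul (((j : ℝ) + 1) ^ 2)).add ((h1.up j).const_mul ((j : ℝ) * (j + 1)))
  have h3 : ((j : ℝ) + 1) ^ 2 * (c * mu (e + 1 + (j + 1)) / ((j + 1).factorial : ℝ) ^ 2) +
      (j : ℝ) * (j + 1) * (0 * mu (e + 1 + 1 + j) / (j.factorial : ℝ) ^ 2) =
      c * mu (e + 1 + 1 + j) / (j.factorial : ℝ) ^ 2 := by
    rw [Nat.factorial_succ, show e + 1 + (j + 1) = e + 1 + 1 + j by ring]
    push_cast
    have : (j.factorial : ℝ) ≠ 0 := by positivity
    field_simp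
    ring
  rw [h3] at h2
  refine h2.congr fun n => ?_
  rw [S_lam, show e + 1 + (j + 1) = e + 1 + 1 + j by ring]
  ring

lemma Good_base (a b : ℝ) : Good 0 (C a * X + C b) (2 * a) := by
  intro j
  -- V limits
  have hV : ∀ j : ℕ, Tendsto (fun n : ℕ => W (fun _ => 1) n j / (4 ^ n * (n : ℝ) ^ j)) atTop
      (𝓝 (mu j / (j.factorial : ℝ) ^ 2)) := by
    intro j
    have h1 := (choose_lim j).const_mul ((j.centralBinom : ℝ) / 4 ^ j)
    rw [cb_mu, show mu j / (j.factorial : ℝ) * (1 / (j.factorial : ℝ)) = mu j / (j.factorial : ℝ) ^ 2 by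
      field_simp] at h1
    refine h1.congr fun n => ?_
    rw [W_V, ← cb_mu]
    field_simp
  have hV1 : Tendsto (fun n : ℕ => W (fun _ => 1) n j / (4 ^ n * (n : ℝ) ^ (0 + 1 + j))) atTop (𝓝 0) := by
    have := (hV j).mul inv_lim
    rw [mul_zero] at this
    refine this.congr fun n => ?_
    rw [show 0 + 1 + j = j + 1 by ring, pow_succ, div_mul_div_comm, mul_one, mul_assoc]
  have hV2 := hV (j + 1)
  have hU : Tendsto (fun n : ℕ => W (fun k => 2 * (k : ℝ) + 1) n j / (4 ^ n * (n : ℝ) ^ (0 + 1 + j)))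
      atTop (𝓝 0) := by
    have h1 : Tendsto (fun n : ℕ => (2 + 1 / (n : ℝ)) * ((n.centralBinom : ℝ) / 4 ^ n) *
        ((n.choose j : ℝ) / (n : ℝ) ^ j)) atTop (𝓝 ((2 + 0) * 0 * (1 / (j.factorial : ℝ)))) :=
      ((tendsto_const_nhds.add inv_lim).mul cb_lim).mul (choose_lim j)
    rw [show (2 + 0) * 0 * (1 / (j.factorial : ℝ)) = 0 by ring] at h1
    refine h1.congr' ?_
    filter_upwards [eventually_ge_atTop 1] with n hn
    have hn0 : (n : ℝ) ≠ 0 := by
      have : 0 < n := by omega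
      positivity
    rw [W_U]
    field_simp
    ring
  have hS : ∀ n, S (C a * X + C b) n j = a / 2 * (4 * (((j : ℝ) + 1) ^ 2 * W (fun _ => 1) n (j + 1) +
      (j : ℝ) * (j + 1) * W (fun _ => 1) n j) + W (fun _ => 1) n j) +
      (b - a / 2) * W (fun k => 2 * (k : ℝ) + 1) n j := by
    intro n
    rw [← W_lam, ← W_smul 4, ← W_add, ← W_smul (a / 2), ← W_smul (b - a / 2), ← W_add]
    unfold S
    congr 1
    funext k
    simp only [eval_mul, eval_add, eval_C, eval_X]; ring
  have h5 := ((((hV2.const_mul (((j : ℝ) + 1) ^ 2)).add (hV1.const_mul ((j : ℝ) * (j + 1)))).const_mul 4).add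
    hV1).const_mul (a / 2)
  have h6 := h5.add (hU.const_mul (b - a / 2))
  have h7 : a / 2 * (4 * (((j : ℝ) + 1) ^ 2 * (mu (j + 1) / ((j + 1).factorial : ℝ) ^ 2) +
      (j : ℝ) * (j + 1) * 0) + 0) + (b - a / 2) * 0 =
      2 * a * mu (0 + 1 + j) / (j.factorial : ℝ) ^ 2 := by
    rw [Nat.factorial_succ, show 0 + 1 + j = j + 1 by ring]
    push_cast
    have : (j.factorial : ℝ) ≠ 0 := by positivity
    field_simp
    ring
  rw [h7] at h6
  refine h6.congr fun n => ?_
  rw [hS, show 0 + 1 + j = j + 1 by ring]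
  ring

lemma Good_all (e : ℕ) : ∀ Q : ℝ[X], Q.natDegree ≤ 2 * e + 1 → Good e Q (2 * Q.coeff (2 * e + 1)) := by
  induction e with
  | zero =>
    intro Q hQ
    have h1 : Q = C (Q.coeff 1) * X + C (Q.coeff 0) := eq_X_add_C_of_natDegree_le_one (by simpa using hQ)
    have h2 := Good_base (Q.coeff 1) (Q.coeff 0)
    rw [← h1] at h2
    simpa using h2
  | succ e ih =>
    intro Q hQ
    have hm : (X ^ 2 + X : ℝ[X]).Monic := by
      have : (X ^ 2 + X : ℝ[X]) = X * (X + C 1) := by simp; ring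
      rw [this]
      exact monic_X.mul (monic_X_add_C 1)
    have hd : (X ^ 2 + X : ℝ[X]).natDegree = 2 := by
      have : (X ^ 2 + X : ℝ[X]) = X * (X + C 1) := by simp; ring
      rw [this, monic_X.natDegree_mul (monic_X_add_C 1), natDegree_X, natDegree_X_add_C]
    set Q' := Q /ₘ (X ^ 2 + X) with hQ'
    set R := Q %ₘ (X ^ 2 + X) with hR
    have h1 : Q = (X ^ 2 + X) * Q' + R := by
      rw [add_comm]; exact (modByMonic_add_div Q _).symm
    have hRd : R.natDegree ≤ 1 := by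
      have h := natDegree_modByMonic_lt Q hm (by
        intro h; rw [h] at hd; simp at hd)
      rw [hd, ← hR] at h
      omega
    have hQd : Q'.natDegree ≤ 2 * e + 1 := by
      rw [hQ', natDegree_divByMonic Q hm, hd]; omega
    have hc : Q.coeff (2 * (e + 1) + 1) = Q'.coeff (2 * e + 1) := by
      conv_lhs => rw [h1]
      rw [coeff_add, add_mul, coeff_add, show 2 * (e + 1) + 1 = (2 * e + 1) + 2 by ring,
        coeff_X_pow_mul, show (2 * e + 1) + 2 = (2 * e + 2) + 1 by ring, coeff_X_mul,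
        coeff_eq_zero_of_natDegree_lt (by omega : Q'.natDegree < 2 * e + 2),
        coeff_eq_zero_of_natDegree_lt (by omega : R.natDegree < 2 * e + 2 + 1)]
      simp
    have hg1 := (ih Q' hQd).lam
    have hg2 : Good (e + 1) R 0 := (ih R (by omega)).up
    have := hg1.add hg2
    rw [← h1] at this
    rw [hc]
    simpa using this


/-- A real polynomial has only real zeros: it is zero, or all its complex zeros are real. -/
def HasOnlyRealZeros (p : ℝ[X]) : Prop :=
  p = 0 ∨ ∀ z : ℂ, aeval z p = 0 → z.im = 0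

lemma HasOnlyRealZeros.splits {p : ℝ[X]} (h : HasOnlyRealZeros p) : p.Splits := by
  rcases h with rfl | h
  · exact Splits.zero
  · refine Splits.of_splits_map (algebraMap ℝ ℂ) (IsAlgClosed.splits _) ?_
    intro z hz
    have h1 : aeval z p = 0 := by
      have := (mem_roots'.mp hz).2
      rw [IsRoot.def, eval_map_algebraMap] at this
      exact this
    exact ⟨z.re, by
      have := h z h1
      apply Complex.ext <;> simp [this]⟩

lemma splits_derivative {p : ℝ[X]} (h : p.Splits) : (derivative p).Splits := by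
  rw [splits_iff_card_roots]
  have h1 := card_roots_le_derivative p
  rw [splits_iff_card_roots.mp h] at h1
  have h2 := natDegree_derivative_le p
  have h3 := card_roots' (derivative p)
  omega

lemma laguerre {p : ℝ[X]} (h : p.Splits) (x : ℝ) :
    0 ≤ (derivative p).eval x ^ 2 - p.eval x * (derivative (derivative p)).eval x := by
  obtain ⟨m, hm⟩ := splits_iff_exists_multiset.mp h
  have key : ∀ m : Multiset ℝ, 0 ≤ (derivative ((m.map (X - C ·)).prod)).eval x ^ 2 -
      ((m.map (X - C ·)).prod).eval x * (derivative (derivative ((m.map (X - C ·)).prod))).eval x := by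
    intro m
    induction m using Multiset.induction_on with
    | empty => simp
    | cons r m ih =>
      set q := (m.map (X - C ·)).prod with hq
      rw [Multiset.map_cons, Multiset.prod_cons, ← hq]
      simp only [derivative_mul, derivative_sub, derivative_X, derivative_C, sub_zero, one_mul,
        derivative_add, eval_add, eval_mul, eval_sub, eval_X, eval_C]
      nlinarith [mul_nonneg (sq_nonneg (x - r)) ih, sq_nonneg (q.eval x)]
  have h1 := key m
  set q := (m.map (X - C ·)).prod with hq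
  rw [hm]
  simp only [derivative_C_mul, eval_mul, eval_C]
  nlinarith [mul_nonneg (sq_nonneg p.leadingCoeff) h1]

lemma splits_iterate_derivative {p : ℝ[X]} (h : p.Splits) (j : ℕ) : (derivative^[j] p).Splits := by
  induction j with
  | zero => simpa using h
  | succ j ih =>
    rw [Function.iterate_succ_apply']
    exact splits_derivative ih

lemma eval_zero_iterate_derivative (p : ℝ[X]) (j : ℕ) :
    (derivative^[j] p).eval 0 = j.factorial * p.coeff j := by
  rw [← coeff_zero_eq_eval_zero, coeff_iterate_derivative]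
  simp [Nat.descFactorial_self]

lemma newton {p : ℝ[X]} (h : p.Splits) (j : ℕ) :
    ((j.factorial : ℝ) * p.coeff j) * (((j + 2).factorial : ℝ) * p.coeff (j + 2)) ≤
      (((j + 1).factorial : ℝ) * p.coeff (j + 1)) ^ 2 := by
  have h1 := laguerre (splits_iterate_derivative h j) 0
  rw [← Function.iterate_succ_apply' derivative j p, ← Function.iterate_succ_apply' derivative (j + 1) p,
    eval_zero_iterate_derivative, eval_zero_iterate_derivative, eval_zero_iterate_derivative] at h1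
  linarith


/-- rising products -/
noncomputable def A (β : ℝ) (i : ℕ) : ℝ := ∏ l ∈ range i, (β + l) / ((l : ℝ) + 1)

lemma A_shift (β : ℝ) (i : ℕ) : A (β - 1) (i + 1) = (β - 1) / ((i : ℝ) + 1) * A β i := by
  unfold A
  rw [prod_div_distrib, prod_div_distrib, prod_range_succ', prod_range_succ (fun l : ℕ => (l : ℝ) + 1)]
  have h1 : ∀ k : ℕ, β - 1 + ((k + 1 : ℕ) : ℝ) = β + k := by intro k; push_cast; ring
  simp only [h1]
  have h2 : (∏ l ∈ range i, ((l : ℝ) + 1)) ≠ 0 := by
    apply prod_ne_zero_iff.mpr; intro l _; positivity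
  have h3 : (i : ℝ) + 1 ≠ 0 := by positivity
  simp only [Nat.cast_zero, add_zero]
  field_simp

lemma A_sub (β : ℝ) (i : ℕ) : A β i - A β (i + 1) = - A (β - 1) (i + 1) := by
  rw [A_shift]
  have h1 : A β (i + 1) = A β i * ((β + i) / ((i : ℝ) + 1)) := by
    unfold A; rw [prod_range_succ]
  rw [h1]
  have h3 : (i : ℝ) + 1 ≠ 0 := by positivity
  field_simp
  ring

lemma alt_pascal (f : ℕ → ℝ) (j : ℕ) :
    ∑ i ∈ range (j + 2), (-1 : ℝ) ^ i * (j + 1).choose i * f i =
      ∑ i ∈ range (j + 1), (-1 : ℝ) ^ i * j.choose i * (f i - f (i + 1)) := by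
  rw [sum_range_succ']
  have h1 : ∑ i ∈ range (j + 1), (-1 : ℝ) ^ (i + 1) * (j + 1).choose (i + 1) * f (i + 1) =
      ∑ i ∈ range (j + 1), (-1 : ℝ) ^ (i + 1) * j.choose (i + 1) * f (i + 1) -
      ∑ i ∈ range (j + 1), (-1 : ℝ) ^ i * j.choose i * f (i + 1) := by
    rw [← sum_sub_distrib]
    apply sum_congr rfl
    intro i _
    rw [Nat.choose_succ_succ]; push_cast; ring
  have h2 : ∑ i ∈ range (j + 1), (-1 : ℝ) ^ (i + 1) * j.choose (i + 1) * f (i + 1) + f 0 =
      ∑ i ∈ range (j + 1), (-1 : ℝ) ^ i * j.choose i * f i := by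
    have := sum_range_succ' (fun i => (-1 : ℝ) ^ i * j.choose i * f i) (j + 1)
    rw [sum_range_succ] at this
    simp only [Nat.choose_succ_self, Nat.cast_zero, mul_zero, zero_mul, add_zero, pow_zero,
      Nat.choose_zero_right, Nat.cast_one, one_mul, mul_one] at this
    exact this.symm
  rw [h1]
  simp only [mul_sub, sum_sub_distrib, pow_zero, Nat.choose_zero_right, Nat.cast_one, one_mul, mul_one]
  linarith

lemma alt_A (j : ℕ) : ∀ (β : ℝ) (s : ℕ),
    ∑ i ∈ range (j + 1), (-1 : ℝ) ^ i * j.choose i * A β (i + s) = (-1) ^ j * A (β - j) (j + s) := by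
  induction j with
  | zero => intro β s; simp
  | succ j ih =>
    intro β s
    rw [alt_pascal (fun i => A β (i + s)) j]
    have h1 : ∀ i, A β (i + s) - A β (i + 1 + s) = - A (β - 1) (i + (s + 1)) := by
      intro i
      rw [show i + 1 + s = i + s + 1 by ring, show i + (s + 1) = i + s + 1 by ring, A_sub]
    simp only [h1, mul_neg, sum_neg_distrib]
    rw [ih (β - 1) (s + 1), show β - 1 - (j : ℝ) = β - ((j + 1 : ℕ) : ℝ) by push_cast; ring,
      show j + (s + 1) = j + 1 + s by ring]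
    ring

lemma mu_add (m i : ℕ) : mu (m + i) = mu m * (i.factorial * A ((m : ℝ) + 1 / 2) i) := by
  unfold mu A
  rw [prod_range_add, prod_div_distrib]
  have h1 : (∏ l ∈ range i, ((l : ℝ) + 1)) = i.factorial := by
    rw [← prod_range_add_one_eq_factorial]; push_cast; rfl
  rw [h1]
  have h2 : (i.factorial : ℝ) ≠ 0 := by positivity
  have h3 : ∏ x ∈ range i, (((m + x : ℕ) : ℝ) + 1 / 2) = ∏ x ∈ range i, ((m : ℝ) + 1 / 2 + x) := by
    apply prod_congr rfl; intro x _; push_cast; ring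
  rw [h3]
  generalize (∏ x ∈ range i, ((m : ℝ) + 1 / 2 + x)) = P
  generalize (∏ x ∈ range m, ((x : ℝ) + 1 / 2)) = M
  field_simp

/-- limit coefficients -/
noncomputable def g (e : ℕ) (c : ℝ) (j : ℕ) : ℝ :=
  c * mu (e + 1) * ((-1) ^ j * A ((e : ℝ) + 3 / 2 - j) j)

lemma g_succ (e : ℕ) (c : ℝ) (j : ℕ) :
    g e c (j + 1) = ((j : ℝ) - e - 1 / 2) / ((j : ℝ) + 1) * g e c j := by
  unfold g
  have h1 : A ((e : ℝ) + 3 / 2 - ((j + 1 : ℕ) : ℝ)) (j + 1) =
      ((e : ℝ) + 3 / 2 - j - 1) / ((j : ℝ) + 1) * A ((e : ℝ) + 3 / 2 - j) j := by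
    rw [← A_shift]; congr 1; push_cast; ring
  rw [h1, pow_succ]
  have h3 : (j : ℝ) + 1 ≠ 0 := by positivity
  field_simp
  ring

lemma mu_pos (m : ℕ) : 0 < mu m := by
  unfold mu; apply prod_pos; intro l _; positivity

lemma g_ne_zero (e : ℕ) {c : ℝ} (hc : c ≠ 0) (j : ℕ) : g e c j ≠ 0 := by
  induction j with
  | zero =>
    have := (mu_pos (e + 1)).ne'
    simp [g, A, hc, this]
  | succ j ih =>
    rw [g_succ]
    refine mul_ne_zero (div_ne_zero ?_ (by positivity)) ih
    intro h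
    have h1 : 2 * (j : ℝ) = 2 * e + 1 := by linarith
    have h2 : 2 * j = 2 * e + 1 := by exact_mod_cast h1
    omega

lemma g_sum (e : ℕ) (c : ℝ) (j : ℕ) :
    (j.factorial : ℝ) * ∑ x ∈ antidiagonal j, ((-1) ^ x.1 * (c * mu (e + 1 + x.1) /
      (x.1.factorial : ℝ) ^ 2)) * (1 / (x.2.factorial : ℝ)) = g e c j := by
  rw [Nat.sum_antidiagonal_eq_sum_range_succ_mk, mul_sum]
  unfold g
  have h0 := alt_A j ((e : ℝ) + 3 / 2) 0
  simp only [add_zero] at h0
  rw [← h0, mul_sum]
  apply sum_congr rfl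
  intro i hi
  have hi' : i ≤ j := by simpa [Nat.lt_succ_iff] using hi
  have h1 : ((j.choose i : ℕ) : ℝ) = (j.factorial : ℝ) / (i.factorial * (j - i).factorial) :=
    Nat.cast_choose ℝ hi'
  rw [h1, mu_add]
  have h2 : (((e + 1 : ℕ) : ℝ) + 1 / 2) = (e : ℝ) + 3 / 2 := by push_cast; ring
  rw [h2]
  have h3 : (i.factorial : ℝ) ≠ 0 := by positivity
  have h4 : ((j - i).factorial : ℝ) ≠ 0 := by positivity
  simp only
  field_simp

/-- `Σ_k (2k+1) w(n,k) Q(k) P_k` -/
noncomputable def gam (Q : ℝ[X]) (n : ℕ) : ℝ[X] :=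
  ∑ k ∈ range (n + 1), C (Q.eval (k : ℝ) * ((2 * (k : ℝ) + 1) * w n k)) * leg k

lemma coeff_gam (Q : ℝ[X]) (n j : ℕ) :
    ((gam Q n).comp (1 - C 2 * X)).coeff j = (-1) ^ j * S Q n j := by
  unfold gam S W
  rw [Polynomial.sum_comp, finsetSum_coeff, mul_sum]
  apply sum_congr rfl
  intro k _
  rw [mul_comp, C_comp, coeff_C_mul, coeff_leg_comp]
  ring

/-- the polynomial `Γp_n(1-2t) (1+t)^n` -/
noncomputable def H (Q : ℝ[X]) (n : ℕ) : ℝ[X] := (gam Q n).comp (1 - C 2 * X) * (1 + X) ^ n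

lemma coeff_H_lim (e : ℕ) (Q : ℝ[X]) (c : ℝ) (hg : Good e Q c) (j : ℕ) :
    Tendsto (fun n : ℕ => ((j.factorial : ℝ) * (H Q n).coeff j) / (4 ^ n * (n : ℝ) ^ (e + 1 + j)))
      atTop (𝓝 (g e c j)) := by
  rw [← g_sum]
  have h1 : Tendsto (fun n : ℕ => (j.factorial : ℝ) * ∑ x ∈ antidiagonal j,
      ((-1) ^ x.1 * (S Q n x.1 / (4 ^ n * (n : ℝ) ^ (e + 1 + x.1)))) * ((n.choose x.2 : ℝ) / (n : ℝ) ^ x.2))
      atTop (𝓝 ((j.factorial : ℝ) * ∑ x ∈ antidiagonal j, ((-1) ^ x.1 * (c * mu (e + 1 + x.1) /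
      (x.1.factorial : ℝ) ^ 2)) * (1 / (x.2.factorial : ℝ)))) := by
    apply Tendsto.const_mul
    apply tendsto_finsetSum
    intro x _
    exact ((hg x.1).const_mul _).mul (choose_lim x.2)
  refine h1.congr' ?_
  filter_upwards [eventually_ge_atTop 1] with n hn
  have hn0 : (n : ℝ) ≠ 0 := by
    have : 0 < n := by omega
    positivity
  unfold H
  rw [coeff_mul, mul_div_assoc, sum_div]
  congr 1
  apply sum_congr rfl
  intro x hx
  rw [coeff_gam, coeff_one_add_X_pow]
  have hx' : x.1 + x.2 = j := by simpa using hx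
  rw [← hx', show e + 1 + (x.1 + x.2) = e + 1 + x.1 + x.2 by ring, pow_add (n : ℝ) (e + 1 + x.1)]
  field_simp

/-- A sequence `γ` is a Legendre multiplier sequence: whenever `p = Σ_k a_k P_k` has only real
zeros, so has `Σ_k γ_k a_k P_k`. -/
def IsLegendreMS (γ : ℕ → ℝ) : Prop :=
  ∀ (N : ℕ) (a : ℕ → ℝ), HasOnlyRealZeros (∑ k ∈ range N, C (a k) * leg k) →
    HasOnlyRealZeros (∑ k ∈ range N, C (γ k * a k) * leg k)

lemma test_real (n : ℕ) :
    HasOnlyRealZeros (∑ k ∈ range (n + 1), C ((2 * (k : ℝ) + 1) * w n k) * leg k) := by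
  right
  intro z hz
  have h1 : (∑ k ∈ range (n + 1), C ((2 * (k : ℝ) + 1) * w n k) * leg k) = gam 1 n := by
    unfold gam; simp
  rw [h1] at hz
  have h2 : (gam 1 n).comp (1 - C 2 * X) = C ((2 * (n : ℝ) + 1) * n.centralBinom) * (1 - X) ^ n := by
    ext j
    rw [coeff_gam, coeff_C_mul]
    have h3 : S 1 n j = (2 * (n : ℝ) + 1) * n.centralBinom * n.choose j := by
      rw [← W_U]; unfold S; simp
    rw [h3]
    have h4 : ((1 - X : ℝ[X]) ^ n).coeff j = (-1) ^ j * n.choose j := by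
      have : (1 - X : ℝ[X]) ^ n = ((1 + X) ^ n).comp (C (-1) * X) := by simp [sub_eq_add_neg]
      rw [this, comp_C_mul_X_coeff, coeff_one_add_X_pow, mul_comm]
    rw [h4]; ring
  have h5 : aeval ((1 - z) / 2) ((gam 1 n).comp (1 - C 2 * X)) = aeval z (gam 1 n) := by
    rw [aeval_comp]
    congr 1
    simp only [map_sub, map_one, map_mul, aeval_C, aeval_X]
    congr 1
    have : (algebraMap ℝ ℂ) 2 = 2 := map_ofNat _ 2
    rw [this]
    ring
  rw [hz, h2] at h5
  rw [map_mul, aeval_C, map_pow, map_sub, map_one, aeval_X] at h5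
  have h6 : (algebraMap ℝ ℂ) ((2 * (n : ℝ) + 1) * n.centralBinom) ≠ 0 := by
    have : ((2 * (n : ℝ) + 1) * n.centralBinom) ≠ 0 := by
      have := Nat.centralBinom_pos n
      positivity
    exact (_root_.map_ne_zero _).mpr this
  have h7 : (1 - (1 - z) / 2) ^ n = 0 := by
    rcases mul_eq_zero.mp h5 with h | h
    · exact absurd h h6
    · exact h
  have h8 : 1 - (1 - z) / 2 = 0 := eq_zero_of_pow_eq_zero h7
  have h9 : z = -1 := by linear_combination 2 * h8
  rw [h9]; simp

/-- No polynomial sequence of odd degree is a Legendre multiplier sequence. -/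
theorem result (d : ℕ) (hd : Odd d) (Q : ℝ[X]) (hQ : Q.natDegree = d) :
    ¬ IsLegendreMS (fun k => Q.eval (k : ℝ)) := by
  intro hL
  obtain ⟨e, rfl⟩ := hd
  have hQ0 : Q ≠ 0 := by rintro rfl; simp at hQ
  have hlc : 2 * Q.coeff (2 * e + 1) ≠ 0 := by
    rw [← hQ]
    exact mul_ne_zero two_ne_zero (leadingCoeff_ne_zero.mpr hQ0)
  have hgood := Good_all e Q hQ.le
  set c := 2 * Q.coeff (2 * e + 1) with hc
  have hsplit : ∀ n, (H Q n).Splits := by
    intro n
    have h1 := (hL (n + 1) _ (test_real n)).splits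
    have h2 : ((gam Q n).comp (1 - C 2 * X)).Splits := by
      refine Splits.comp_of_natDegree_le_one h1 ?_
      have : (1 - C 2 * X : ℝ[X]) = C (-2) * X + C 1 := by simp; ring
      rw [this]
      exact natDegree_linear_le
    refine h2.mul (Splits.pow ?_ n)
    rw [add_comm]
    exact Splits.X_add_C 1
  have hnew : ∀ j, g e c j * g e c (j + 2) ≤ g e c (j + 1) ^ 2 := by
    intro j
    have h1 := (coeff_H_lim e Q c hgood j).mul (coeff_H_lim e Q c hgood (j + 2))
    have h2 := (coeff_H_lim e Q c hgood (j + 1)).pow 2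
    refine le_of_tendsto_of_tendsto h1 h2 ?_
    filter_upwards [eventually_ge_atTop 1] with n hn
    have hn0 : (0 : ℝ) < n := by
      have : 0 < n := by omega
      positivity
    have h3 := newton (hsplit n) j
    rw [div_mul_div_comm, div_pow]
    have h4 : (4 ^ n * (n : ℝ) ^ (e + 1 + j)) * (4 ^ n * (n : ℝ) ^ (e + 1 + (j + 2))) =
        (4 ^ n * (n : ℝ) ^ (e + 1 + (j + 1))) ^ 2 := by ring
    rw [h4]
    exact div_le_div_of_nonneg_right h3 (by positivity)
  have h1 := hnew (e + 1)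
  have h2 := g_succ e c (e + 1)
  have h3 := g_succ e c (e + 1 + 1)
  rw [show e + 1 + 2 = e + 1 + 1 + 1 by ring, h3, h2] at h1
  have h5 := g_ne_zero e hlc (e + 1)
  have h6 : 0 < g e c (e + 1) ^ 2 := by positivity
  push_cast at h1
  have he : (0 : ℝ) ≤ e := by positivity
  have h7 : ((e : ℝ) + 1 - e - 1 / 2) / ((e : ℝ) + 1 + 1) = 1 / (2 * (e + 2)) := by
    field_simp; ring
  have h8 : ((e : ℝ) + 1 + 1 - e - 1 / 2) / ((e : ℝ) + 1 + 1 + 1) = 3 / (2 * (e + 3)) := by
    field_simp; ring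
  rw [h7, h8] at h1
  have h9 : 3 / (2 * ((e : ℝ) + 3)) * (1 / (2 * (e + 2))) * g e c (e + 1) ^ 2 ≤
      (1 / (2 * ((e : ℝ) + 2))) ^ 2 * g e c (e + 1) ^ 2 := by nlinarith
  have h10 := le_of_mul_le_mul_right h9 h6
  rw [div_mul_div_comm, div_pow, div_le_div_iff₀ (by positivity) (by positivity)] at h10
  nlinarith [mul_nonneg he he]

end Pool.Agent.Results.MP_87bea5_an.OddDegree
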